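import Mathlib

/-!
# The generalized quadrangle W(3) and its dual have geometric realizations
in the real projective plane

`W(3)` has as points the points of `PG(3,3)` and as lines the totally isotropic lines of a
symplectic form.  We give forty explicit points and forty explicit lines of the real (in fact
rational) projective plane whose incidences are exactly those of `W(3)`.
-/

namespace Pool.Agent.Results.MP_6466f5_co.RealW33

/-- The standard symplectic form on the 4-dimensional space over the field with 3 elements. -/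
def form (x y : Fin 4 → ZMod 3) : ZMod 3 :=
  x 0 * y 1 - x 1 * y 0 + (x 2 * y 3 - x 3 * y 2)

/-- Points of `W(3)`: the points of the projective space `PG(3,3)`. -/
abbrev WPoint : Type := Projectivization (ZMod 3) (Fin 4 → ZMod 3)

/-- Lines of `W(3)`: the lines of `PG(3,3)` (2-dimensional subspaces) that are totally
isotropic for the symplectic form. -/
@[ext] structure WLine : Type where
  /-- the underlying 2-dimensional subspace -/
  carrier : Submodule (ZMod 3) (Fin 4 → ZMod 3)
  two : Module.finrank (ZMod 3) carrier = 2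
  isotropic : ∀ x ∈ carrier, ∀ y ∈ carrier, form x y = 0

/-- Incidence of `W(3)`: the point lies on the line. -/
def WInc (p : WPoint) (l : WLine) : Prop := p.submodule ≤ l.carrier

/-- Points of the real projective plane. -/
abbrev RPoint : Type := Projectivization ℝ (Fin 3 → ℝ)

/-- Straight lines of the real projective plane: 2-dimensional subspaces of `ℝ³`. -/
@[ext] structure RLine : Type where
  /-- the underlying 2-dimensional subspace -/
  carrier : Submodule ℝ (Fin 3 → ℝ)
  two : Module.finrank ℝ carrier = 2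

/-- Incidence of the real projective plane: the point lies on the line. -/
def RInc (p : RPoint) (l : RLine) : Prop := p.submodule ≤ l.carrier

/-- An incidence structure `I` between points `P` and lines `L` has a geometric realization:
there are injective maps from its points to points and from its lines to straight lines of the
real projective plane such that a point lies on a line if and only if the two are incident
in `I`. -/
def HasGeometricRealization {P L : Type} (I : P → L → Prop) : Prop :=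
  ∃ (f : P → RPoint) (g : L → RLine), Function.Injective f ∧ Function.Injective g ∧
    ∀ p l, RInc (f p) (g l) ↔ I p l

/-! ### Explicit data -/

/-- real homogeneous coordinates of the forty points -/
def ptL : List (ℤ × ℤ × ℤ) :=
  [(5, -1, -3), (1, 0, 0), (0, 1, 0), (0, 0, 1), (2, -1, -2), (19, -14, -20), (28, -17, -26),
   (22, -8, -29), (5, -13, -19), (73, -44, -83), (4, -11, -11), (49, -20, -38), (13, -14, -17),
   (58, -23, -44), (7, -5, -20), (52, -14, -47), (9, -4, -8), (3, -2, -4), (17, -7, -10),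
   (58, -35, -50), (91, -68, -104), (16, -17, -26), (64, -8, -29), (47, -16, -58), (8, -3, -8),
   (4, -3, -4), (19, 28, -20), (38, -25, -40), (14, -1, -13), (70, -32, -65), (88, -53, -116),
   (22, -20, -29), (8, -4, -7), (4, -2, -5), (76, -56, -101), (19, -14, -32), (28, -17, 16),
   (56, -34, -49), (11, -4, -7), (55, -20, -62)]

/-- real homogeneous coordinates of the forty lines -/
def lnL : List (ℤ × ℤ × ℤ) :=
  [(1, -4, 3), (22, -43, 51), (25, -46, 57), (5, 79, -18), (0, 2, -1), (0, 10, -7), (0, 26, -17),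
   (0, 29, -8), (1, 0, 1), (20, 0, 19), (13, 0, 14), (29, 0, 22), (1, 2, 0), (14, 19, 0),
   (17, 28, 0), (4, 11, 0), (1, 91, -62), (235, 388, 1), (5, -58, 41), (356, -13, 320),
   (50, -67, 59), (68, -355, 248), (22, -17, 25), (4, 25, -8), (11, -8, 12), (4, -13, 12),
   (11, -28, 32), (46, 88, 13), (22, 1, 16), (8, 68, -25), (5, -16, 17), (26, 56, 5),
   (12, -1, 10), (5, -18, 16), (20, 32, -1), (76, 7, 82), (5, 15, -2), (15, 2, 16),
   (40, 52, 1), (29, -40, 44)]

/-- for each line, the set of the points on it, as a bit mask -/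
def maskL : List ℕ :=
  [785, 3105, 12353, 49281, 196626, 786466, 3145794, 12583042, 50331668, 201326628, 805306436,
   3221225604, 12884901912, 51539607592, 206158430280, 824633720968, 139586699520, 69793743360,
   275014222080, 549823971840, 34636562688, 17720934912, 550024381440, 275414845440,
   9665774592, 6443501568, 137476703232, 68744644608, 19327488000, 35433553920, 274911989760,
   549772861440, 8665436160, 4433387520, 68853841920, 137506160640, 9127084032, 4563959808,
   34394357760, 17198776320]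

/-- representatives of the forty points of `PG(3,3)` -/
def pvL : List (ZMod 3 × ZMod 3 × ZMod 3 × ZMod 3) :=
  [(0, 0, 0, 1), (0, 0, 1, 0), (0, 0, 1, 1), (0, 0, 1, 2), (0, 1, 0, 0), (1, 0, 0, 0),
   (1, 1, 0, 0), (1, 2, 0, 0), (0, 1, 0, 1), (0, 1, 0, 2), (1, 0, 0, 2), (1, 0, 0, 1),
   (1, 1, 0, 2), (1, 1, 0, 1), (1, 2, 0, 2), (1, 2, 0, 1), (0, 1, 1, 0), (0, 1, 2, 0),
   (1, 0, 2, 0), (1, 0, 1, 0), (1, 1, 1, 0), (1, 1, 2, 0), (1, 2, 1, 0), (1, 2, 2, 0),
   (0, 1, 1, 1), (0, 1, 2, 2), (1, 0, 1, 1), (1, 0, 2, 2), (1, 1, 2, 2), (1, 1, 1, 1),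
   (1, 2, 1, 1), (1, 2, 2, 2), (0, 1, 1, 2), (0, 1, 2, 1), (1, 0, 1, 2), (1, 0, 2, 1),
   (1, 1, 1, 2), (1, 1, 2, 1), (1, 2, 2, 1), (1, 2, 1, 2)]

/-- for each line, two points on it -/
def gnL : List (ℕ × ℕ) :=
  [(0, 4), (0, 5), (0, 6), (0, 7), (1, 4), (1, 5), (1, 6), (1, 7), (2, 4), (2, 5), (2, 6),
   (2, 7), (3, 4), (3, 5), (3, 6), (3, 7), (8, 18), (9, 19), (8, 21), (9, 20), (8, 23),
   (9, 22), (10, 17), (11, 16), (10, 21), (11, 20), (10, 22), (11, 23), (12, 17), (13, 16),
   (12, 19), (13, 18), (12, 23), (13, 22), (14, 17), (15, 16), (14, 18), (15, 19), (14, 20),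
   (15, 21)]

def pt (j : Fin 40) : ℤ × ℤ × ℤ := ptL.getD j.val (0, 0, 0)
def ln (i : Fin 40) : ℤ × ℤ × ℤ := lnL.getD i.val (0, 0, 0)
def minc (i j : Fin 40) : Bool := (maskL.getD i.val 0).testBit j.val
def pq (j : Fin 40) : ZMod 3 × ZMod 3 × ZMod 3 × ZMod 3 := pvL.getD j.val (0, 0, 0, 0)
def ga (i : Fin 40) : Fin 40 := Fin.ofNat 40 (gnL.getD i.val (0, 0)).1
def gb (i : Fin 40) : Fin 40 := Fin.ofNat 40 (gnL.getD i.val (0, 0)).2

/-- the form in coordinates -/
def fq (x y : ZMod 3 × ZMod 3 × ZMod 3 × ZMod 3) : ZMod 3 :=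
  x.1 * y.2.1 - x.2.1 * y.1 + (x.2.2.1 * y.2.2.2 - x.2.2.2 * y.2.2.1)

def dotZ (x y : ℤ × ℤ × ℤ) : ℤ := x.1 * y.1 + x.2.1 * y.2.1 + x.2.2 * y.2.2

set_option maxRecDepth 100000

theorem key : ∀ j i : Fin 40, (dotZ (pt j) (ln i) = 0 ↔ minc i j = true) := by
  decide +kernel

theorem sepPt : ∀ j j' : Fin 40, (∀ i, minc i j = minc i j') → j = j' := by
  decide +kernel

theorem sepLn : ∀ i i' : Fin 40, (∀ j, minc i j = minc i' j) → i = i' := by
  decide +kernel

theorem d1 : ∀ x y z w : ZMod 3, ¬ (x = 0 ∧ y = 0 ∧ z = 0 ∧ w = 0) →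
    ∃ j : Fin 40, ∃ c : ZMod 3, c * (pq j).1 = x ∧ c * (pq j).2.1 = y ∧
      c * (pq j).2.2.1 = z ∧ c * (pq j).2.2.2 = w := by
  decide +kernel

theorem d2 : ∀ j j' : Fin 40, j ≠ j' → fq (pq j) (pq j') = 0 →
    ∃ i : Fin 40, minc i j = true ∧ minc i j' = true := by
  decide +kernel

theorem d3 : ∀ i j : Fin 40, minc i j = true → ∃ s t : ZMod 3,
    s * (pq (ga i)).1 + t * (pq (gb i)).1 = (pq j).1 ∧
    s * (pq (ga i)).2.1 + t * (pq (gb i)).2.1 = (pq j).2.1 ∧
    s * (pq (ga i)).2.2.1 + t * (pq (gb i)).2.2.1 = (pq j).2.2.1 ∧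
    s * (pq (ga i)).2.2.2 + t * (pq (gb i)).2.2.2 = (pq j).2.2.2 := by
  decide +kernel

theorem d4 : ∀ i j : Fin 40, fq (pq j) (pq (ga i)) = 0 → fq (pq j) (pq (gb i)) = 0 →
    minc i j = true := by
  decide +kernel

theorem d5 : ∀ j : Fin 40, pq j ≠ (0, 0, 0, 0) := by
  decide +kernel

/-! ### The finite side -/

/-- the vector of `F_3^4` representing the `j`-th point -/
def pvec (j : Fin 40) : Fin 4 → ZMod 3 := ![(pq j).1, (pq j).2.1, (pq j).2.2.1, (pq j).2.2.2]

theorem pvec_ne (j : Fin 40) : pvec j ≠ 0 := by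
  intro h
  apply d5 j
  have h0 := congrFun h 0
  have h1 := congrFun h 1
  have h2 := congrFun h 2
  have h3 := congrFun h 3
  simp only [pvec, Matrix.cons_val, Pi.zero_apply] at h0 h1 h2 h3
  exact Prod.ext h0 (Prod.ext h1 (Prod.ext h2 h3))

theorem form_pvec (j k : Fin 40) : form (pvec j) (pvec k) = fq (pq j) (pq k) := by
  simp [form, fq, pvec]

theorem vec_repr (v : Fin 4 → ZMod 3) (hv : v ≠ 0) :
    ∃ j : Fin 40, ∃ c : ZMod 3, c • pvec j = v := by
  have hne : ¬ (v 0 = 0 ∧ v 1 = 0 ∧ v 2 = 0 ∧ v 3 = 0) := by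
    rintro ⟨h0, h1, h2, h3⟩
    apply hv
    funext k
    fin_cases k
    · exact h0
    · exact h1
    · exact h2
    · exact h3
  obtain ⟨j, c, h0, h1, h2, h3⟩ := d1 (v 0) (v 1) (v 2) (v 3) hne
  refine ⟨j, c, ?_⟩
  funext k
  fin_cases k
  · simpa [pvec] using h0
  · simpa [pvec] using h1
  · simpa [pvec] using h2
  · simpa [pvec] using h3

theorem point_repr (p : WPoint) :
    ∃ j : Fin 40, p = Projectivization.mk (ZMod 3) (pvec j) (pvec_ne j) := by
  induction p using Projectivization.ind with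
  | h v hv =>
    obtain ⟨j, c, hc⟩ := vec_repr v hv
    refine ⟨j, ?_⟩
    rw [Projectivization.mk_eq_mk_iff']
    exact ⟨c, hc⟩

/-- the subspace spanned by the two chosen points of the `i`-th line -/
def sp (i : Fin 40) : Submodule (ZMod 3) (Fin 4 → ZMod 3) :=
  Submodule.span (ZMod 3) {pvec (ga i), pvec (gb i)}

theorem mem_sp_of_minc (i j : Fin 40) (h : minc i j = true) : pvec j ∈ sp i := by
  obtain ⟨s, t, h0, h1, h2, h3⟩ := d3 i j h
  rw [sp, Submodule.mem_span_pair]
  refine ⟨s, t, ?_⟩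
  funext k
  fin_cases k
  · simpa [pvec] using h0
  · simpa [pvec] using h1
  · simpa [pvec] using h2
  · simpa [pvec] using h3

theorem finrank_sp_le (i : Fin 40) : Module.finrank (ZMod 3) (sp i) ≤ 2 := by
  have h := finrank_span_finset_le_card (R := ZMod 3)
    ({pvec (ga i), pvec (gb i)} : Finset (Fin 4 → ZMod 3))
  have h2 : ({pvec (ga i), pvec (gb i)} : Finset (Fin 4 → ZMod 3)).card ≤ 2 :=
    Finset.card_le_two
  have h3 : sp i = Submodule.span (ZMod 3)
      (({pvec (ga i), pvec (gb i)} : Finset (Fin 4 → ZMod 3)) : Set (Fin 4 → ZMod 3)) := by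
    simp [sp]
  rw [h3]
  exact h.trans h2

theorem line_repr (l : WLine) : ∃ i : Fin 40, l.carrier = sp i := by
  classical
  have hfin := l.two
  have b : Module.Basis (Fin 2) (ZMod 3) l.carrier := Module.finBasisOfFinrankEq _ _ hfin
  set u : Fin 4 → ZMod 3 := (b 0 : Fin 4 → ZMod 3) with hu
  set v : Fin 4 → ZMod 3 := (b 1 : Fin 4 → ZMod 3) with hv
  have hum : u ∈ l.carrier := (b 0).2
  have hvm : v ∈ l.carrier := (b 1).2
  have hu0 : u ≠ 0 := by
    intro h
    exact b.ne_zero 0 (Subtype.ext h)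
  have hv0 : v ≠ 0 := by
    intro h
    exact b.ne_zero 1 (Subtype.ext h)
  obtain ⟨ju, cu, hcu⟩ := vec_repr u hu0
  obtain ⟨jv, cv, hcv⟩ := vec_repr v hv0
  have hcu0 : cu ≠ 0 := by
    rintro rfl
    exact hu0 (by rw [← hcu, zero_smul])
  have hcv0 : cv ≠ 0 := by
    rintro rfl
    exact hv0 (by rw [← hcv, zero_smul])
  have hpu : pvec ju ∈ l.carrier := by
    have : pvec ju = cu⁻¹ • u := by rw [← hcu, smul_smul, inv_mul_cancel₀ hcu0, one_smul]
    rw [this]
    exact l.carrier.smul_mem _ hum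
  have hpv : pvec jv ∈ l.carrier := by
    have : pvec jv = cv⁻¹ • v := by rw [← hcv, smul_smul, inv_mul_cancel₀ hcv0, one_smul]
    rw [this]
    exact l.carrier.smul_mem _ hvm
  have hne : ju ≠ jv := by
    rintro rfl
    have hlin : cv • b 0 + (-cu) • b 1 = 0 := by
      apply Subtype.ext
      have : cv • u + (-cu) • v = 0 := by
        rw [← hcu, ← hcv, smul_smul, smul_smul, ← add_smul]
        have : cv * cu + -cu * cv = 0 := by ring
        rw [this, zero_smul]
      simpa [hu, hv] using this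
    have hli := b.linearIndependent
    rw [Fintype.linearIndependent_iff] at hli
    have h0 := hli ![cv, -cu] (by rw [Fin.sum_univ_two]; exact hlin) 0
    exact hcv0 (by simpa using h0)
  have hf : fq (pq ju) (pq jv) = 0 := by
    rw [← form_pvec]
    exact l.isotropic _ hpu _ hpv
  obtain ⟨i, hi1, hi2⟩ := d2 ju jv hne hf
  refine ⟨i, ?_⟩
  have hle : l.carrier ≤ sp i := by
    intro x hx
    have hx' := b.sum_repr ⟨x, hx⟩
    have hx2 : x = (b.repr ⟨x, hx⟩ 0) • u + (b.repr ⟨x, hx⟩ 1) • v := by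
      have := congrArg Subtype.val hx'
      rw [Fin.sum_univ_two] at this
      simpa [hu, hv] using this.symm
    rw [hx2]
    apply Submodule.add_mem
    · apply Submodule.smul_mem
      rw [← hcu]
      exact Submodule.smul_mem _ _ (mem_sp_of_minc i ju hi1)
    · apply Submodule.smul_mem
      rw [← hcv]
      exact Submodule.smul_mem _ _ (mem_sp_of_minc i jv hi2)
  apply Submodule.eq_of_le_of_finrank_le hle
  rw [hfin]
  exact finrank_sp_le i

noncomputable def ja (p : WPoint) : Fin 40 := Classical.choose (point_repr p)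

theorem ja_spec (p : WPoint) :
    p = Projectivization.mk (ZMod 3) (pvec (ja p)) (pvec_ne (ja p)) :=
  Classical.choose_spec (point_repr p)

noncomputable def ia (l : WLine) : Fin 40 := Classical.choose (line_repr l)

theorem ia_spec (l : WLine) : l.carrier = sp (ia l) := Classical.choose_spec (line_repr l)

theorem ja_inj {p p' : WPoint} (h : ja p = ja p') : p = p' := by
  rw [ja_spec p, ja_spec p']
  rw [Projectivization.mk_eq_mk_iff']
  exact ⟨1, by rw [h, one_smul]⟩

theorem ia_inj {l l' : WLine} (h : ia l = ia l') : l = l' := by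
  apply WLine.ext
  rw [ia_spec l, ia_spec l', h]

theorem winc_iff (p : WPoint) (l : WLine) : WInc p l ↔ minc (ia l) (ja p) = true := by
  have h1 : WInc p l ↔ pvec (ja p) ∈ l.carrier := by
    unfold WInc
    conv_lhs => rw [ja_spec p]
    rw [Projectivization.submodule_mk, Submodule.span_singleton_le_iff_mem]
  rw [h1]
  constructor
  · intro hm
    have hga : pvec (ga (ia l)) ∈ l.carrier := by
      rw [ia_spec l]
      exact Submodule.subset_span (by simp)
    have hgb : pvec (gb (ia l)) ∈ l.carrier := by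
      rw [ia_spec l]
      exact Submodule.subset_span (by simp)
    apply d4
    · rw [← form_pvec]
      exact l.isotropic _ hm _ hga
    · rw [← form_pvec]
      exact l.isotropic _ hm _ hgb
  · intro hm
    rw [ia_spec l]
    exact mem_sp_of_minc _ _ hm

/-! ### The real side -/

/-- a triple of integers as a vector of `ℝ³` -/
def rv (x : ℤ × ℤ × ℤ) : Fin 3 → ℝ := ![(x.1 : ℝ), (x.2.1 : ℝ), (x.2.2 : ℝ)]

/-- the linear functional `y ↦ x₀ y₀ + x₁ y₁ + x₂ y₂` -/
noncomputable def fn (x : Fin 3 → ℝ) : (Fin 3 → ℝ) →ₗ[ℝ] ℝ :=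
  x 0 • LinearMap.proj 0 + x 1 • LinearMap.proj 1 + x 2 • LinearMap.proj 2

theorem fn_apply (x y : Fin 3 → ℝ) : fn x y = x 0 * y 0 + x 1 * y 1 + x 2 * y 2 := by
  simp [fn]

theorem fn_rv (x y : ℤ × ℤ × ℤ) : fn (rv x) (rv y) = ((dotZ x y : ℤ) : ℝ) := by
  rw [fn_apply]
  simp [rv, dotZ]

theorem dotZ_comm (x y : ℤ × ℤ × ℤ) : dotZ x y = dotZ y x := by
  unfold dotZ
  ring

theorem fn_ne {x : Fin 3 → ℝ} (hx : x ≠ 0) : fn x ≠ 0 := by
  intro h
  apply hx
  have h0 := LinearMap.congr_fun h (![1, 0, 0] : Fin 3 → ℝ)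
  have h1 := LinearMap.congr_fun h (![0, 1, 0] : Fin 3 → ℝ)
  have h2 := LinearMap.congr_fun h (![0, 0, 1] : Fin 3 → ℝ)
  rw [fn_apply] at h0 h1 h2
  simp at h0 h1 h2
  funext k
  fin_cases k
  · exact h0
  · exact h1
  · exact h2

/-- the straight line with the given nonzero coordinate vector -/
noncomputable def rline (x : Fin 3 → ℝ) (hx : x ≠ 0) : RLine where
  carrier := LinearMap.ker (fn x)
  two := by
    have h := Module.Dual.finrank_ker_add_one_of_ne_zero (fn_ne hx)
    rw [Module.finrank_fin_fun] at h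
    omega

theorem rinc_iff (x y : Fin 3 → ℝ) (hx : x ≠ 0) (hy : y ≠ 0) :
    RInc (Projectivization.mk ℝ y hy) (rline x hx) ↔ fn x y = 0 := by
  unfold RInc
  rw [Projectivization.submodule_mk, Submodule.span_singleton_le_iff_mem]
  exact LinearMap.mem_ker

theorem nzPt : ∀ j : Fin 40, pt j ≠ (0, 0, 0) := by decide +kernel

theorem nzLn : ∀ j : Fin 40, ln j ≠ (0, 0, 0) := by decide +kernel

theorem rv_ne {x : ℤ × ℤ × ℤ} (hx : x ≠ (0, 0, 0)) : rv x ≠ 0 := by
  intro h
  apply hx
  have h0 := congrFun h 0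
  have h1 := congrFun h 1
  have h2 := congrFun h 2
  simp [rv] at h0 h1 h2
  exact Prod.ext h0 (Prod.ext h1 h2)

/-- General criterion: integer vectors for points and lines, with labels in `Fin 40`. -/
theorem realize {P L : Type} (I : P → L → Prop) (a : P → Fin 40) (b : L → Fin 40)
    (v w : Fin 40 → ℤ × ℤ × ℤ) (m : Fin 40 → Fin 40 → Bool)
    (ha : Function.Injective a) (hb : Function.Injective b)
    (hv : ∀ j, v j ≠ (0, 0, 0)) (hw : ∀ i, w i ≠ (0, 0, 0))
    (hm : ∀ j i, dotZ (v j) (w i) = 0 ↔ m i j = true)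
    (hI : ∀ p l, I p l ↔ m (b l) (a p) = true)
    (s1 : ∀ j j', (∀ i, m i j = m i j') → j = j')
    (s2 : ∀ i i', (∀ j, m i j = m i' j) → i = i') : HasGeometricRealization I := by
  have hinc : ∀ j i, RInc (Projectivization.mk ℝ (rv (v j)) (rv_ne (hv j)))
      (rline (rv (w i)) (rv_ne (hw i))) ↔ m i j = true := by
    intro j i
    rw [rinc_iff, fn_rv, dotZ_comm, ← hm j i]
    exact_mod_cast Iff.rfl
  refine ⟨fun p => Projectivization.mk ℝ (rv (v (a p))) (rv_ne (hv (a p))),
    fun l => rline (rv (w (b l))) (rv_ne (hw (b l))), ?_, ?_, ?_⟩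
  · intro p p' h
    apply ha
    apply s1
    intro i
    have h1 := hinc (a p) i
    have h2 := hinc (a p') i
    simp only at h
    rw [h] at h1
    exact Bool.eq_iff_iff.mpr (h1.symm.trans h2)
  · intro l l' h
    apply hb
    apply s2
    intro j
    have h1 := hinc j (b l)
    have h2 := hinc j (b l')
    simp only at h
    rw [h] at h1
    exact Bool.eq_iff_iff.mpr (h1.symm.trans h2)
  · intro p l
    rw [hinc, hI]

/-- `W(3)` and its dual both have geometric realizations in the real projective plane. -/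
theorem result : HasGeometricRealization WInc ∧
    HasGeometricRealization (fun (l : WLine) (p : WPoint) => WInc p l) := by
  constructor
  · exact realize WInc ja ia pt ln minc (fun _ _ h => ja_inj h) (fun _ _ h => ia_inj h)
      nzPt nzLn key winc_iff sepPt sepLn
  · refine realize (fun (l : WLine) (p : WPoint) => WInc p l) ia ja ln pt
      (fun j i => minc i j) (fun _ _ h => ia_inj h) (fun _ _ h => ja_inj h)
      nzLn nzPt ?_ (fun l p => winc_iff p l) sepLn sepPt
    intro i j
    rw [dotZ_comm]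
    exact key j i

end Pool.Agent.Results.MP_6466f5_co.RealW33
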